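import Mathlib
import Pool.Agent.Y690.JP.Stm
import Pool.Agent.Y606.PP.ABSa

/-!
# Project JP, job ABSA: two linked large sets, several characters (adaptation of
`Pool/Agent/Y606/PP/ABSa.lean` by helper606)
-/

set_option autoImplicit false

open Finset

namespace Pool.Agent.Y258.JP

open Pool.Agent.Y690.PP (NN FF PB sy Basic A2 A4 TT)
open Pool.Agent.Y690.JP (Lin wt SABSa)
open Pool.Agent.Y606.PP (bil oth mem_oth prod_oth sum_oth ins red ins_u ins_v ins_o abs_w_le
  abs_prod_le abs_mul_le one_le_NN NN_empty one_le_NN' mem_FF abs_sy_le sy_symm sy_zero prod_pm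
  sy_val abs_pow_le pow_odd_pm sum_inv_FF)

variable {P : Type} {X : Type} [AddCommGroup X] {N : P → ℕ} {s : P → P → ℝ} {ch : X → P → ℝ}
  {I : Type} [Fintype I] [DecidableEq I]

theorem abs_ch_le (hch : Lin ch) (x : X) (A : Finset P) : |∏ p ∈ A, ch x p| ≤ 1 := by
  rcases prod_pm A (ch x) (fun p _ => hch.val x p) with h1 | h1 <;> rw [h1] <;> simp

/-- The factor which depends on the other sets. -/
noncomputable def cs (s : P → P → ℝ) (ch : X → P → ℝ) (w : ℝ) (e : I → I → ℕ) (τ : I → X) (u v : I)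
    (B : I → Finset P) : ℝ :=
  w ^ (∑ z ∈ oth u v, #(B z)) * (∏ z ∈ oth u v, ∏ p ∈ B z, ch (τ z) p) *
    ∏ z ∈ oth u v, ∏ z' ∈ oth u v, sy s (B z) (B z') ^ e z z'

open Classical in
/-- The factor which depends on one of the two sets. -/
noncomputable def one (s : P → P → ℝ) (ch : X → P → ℝ) (w : ℝ) (e : I → I → ℕ) (τ : I → X) (u v : I)
    (B : I → Finset P) (x : I) (A₀ : Finset P) : ℝ :=
  if ∀ z ∈ oth u v, Disjoint A₀ (B z) then w ^ #A₀ * (∏ p ∈ A₀, ch (τ x) p) *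
    ((∏ z ∈ oth u v, sy s A₀ (B z) ^ e x z) * ∏ z ∈ oth u v, sy s (B z) A₀ ^ e z x) else 0

theorem abs_cs_le (h : Basic N s fun _ => 1) (hch : Lin ch) {w : ℝ} (hw0 : 0 ≤ w) (hw1 : w ≤ 1) (e : I → I → ℕ)
    (τ : I → X) (u v : I) (B : I → Finset P) : |cs s ch w e τ u v B| ≤ 1 := by
  unfold cs
  refine abs_mul_le (abs_mul_le (abs_w_le hw0 hw1 _) (abs_prod_le _ _ fun z _ => ?_))
    (abs_prod_le _ _ fun z _ => abs_prod_le _ _ fun z' _ => abs_pow_le (abs_sy_le h _ _) _)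
  exact abs_ch_le hch _ _

theorem abs_one_le (h : Basic N s fun _ => 1) (hch : Lin ch) {w : ℝ} (hw0 : 0 ≤ w) (hw1 : w ≤ 1) (e : I → I → ℕ)
    (τ : I → X) (u v : I) (B : I → Finset P) (x : I) (A₀ : Finset P) :
    |one s ch w e τ u v B x A₀| ≤ 1 := by
  unfold one
  split_ifs
  · refine abs_mul_le (abs_mul_le (abs_w_le hw0 hw1 _) (abs_ch_le hch _ _))
      (abs_mul_le (abs_prod_le _ _ fun z _ => abs_pow_le (abs_sy_le h _ _) _)
        (abs_prod_le _ _ fun z _ => abs_pow_le (abs_sy_le h _ _) _))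
  · rw [abs_zero]
    exact zero_le_one

omit [AddCommGroup X] in
/-- The weight as a product. -/
theorem wt_ins (h : Basic N s fun _ => 1) {u v : I} (huv : u ≠ v) (w : ℝ) {e : I → I → ℕ} (τ : I → X)
    (he : ∀ u, e u u = 0) (ho : Odd (e u v + e v u)) (B : I → Finset P) {A₀ B₀ : Finset P}
    (hd : Disjoint A₀ B₀) (h1 : ∀ z ∈ oth u v, Disjoint A₀ (B z))
    (h2 : ∀ z ∈ oth u v, Disjoint B₀ (B z)) :
    wt s ch w e τ (ins u v B A₀ B₀) =
      cs s ch w e τ u v B * (one s ch w e τ u v B u A₀ * one s ch w e τ u v B v B₀ * sy s A₀ B₀) := by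
  classical
  have e0 : sy s A₀ B₀ ^ e u v * sy s B₀ A₀ ^ e v u = sy s A₀ B₀ := by
    rw [sy_symm h B₀ A₀, ← pow_add]
    exact pow_odd_pm (sy_val h hd) ho
  have e1 : ∑ z, #(ins u v B A₀ B₀ z) = #A₀ + (#B₀ + ∑ z ∈ oth u v, #(B z)) := by
    rw [sum_oth huv, ins_u, ins_v huv]
    congr 2
    exact Finset.sum_congr rfl fun z hz => by rw [ins_o hz]
  have e2 : ∏ z, ∏ p ∈ ins u v B A₀ B₀ z, ch (τ z) p = (∏ p ∈ A₀, ch (τ u) p) *
      ((∏ p ∈ B₀, ch (τ v) p) * ∏ z ∈ oth u v, ∏ p ∈ B z, ch (τ z) p) := by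
    rw [prod_oth huv, ins_u, ins_v huv]
    congr 2
    exact Finset.prod_congr rfl fun z hz => by rw [ins_o hz]
  have e3 : ∀ (A : Finset P) (y : I), ∏ z, sy s A (ins u v B A₀ B₀ z) ^ e y z =
      sy s A A₀ ^ e y u * (sy s A B₀ ^ e y v * ∏ z ∈ oth u v, sy s A (B z) ^ e y z) := by
    intro A y
    rw [prod_oth huv, ins_u, ins_v huv]
    congr 2
    exact Finset.prod_congr rfl fun z hz => by rw [ins_o hz]
  have e4 : ∏ y, ∏ z, sy s (ins u v B A₀ B₀ y) (ins u v B A₀ B₀ z) ^ e y z =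
      (sy s A₀ B₀ ^ e u v * ∏ z ∈ oth u v, sy s A₀ (B z) ^ e u z) *
      ((sy s B₀ A₀ ^ e v u * ∏ z ∈ oth u v, sy s B₀ (B z) ^ e v z) *
      ∏ y ∈ oth u v, (sy s (B y) A₀ ^ e y u * (sy s (B y) B₀ ^ e y v *
        ∏ z ∈ oth u v, sy s (B y) (B z) ^ e y z))) := by
    rw [prod_oth huv, ins_u, ins_v huv, e3, e3, he, he, pow_zero, pow_zero, one_mul, one_mul]
    congr 2
    exact Finset.prod_congr rfl fun y hy => by rw [ins_o hy, e3]
  unfold wt
  rw [e1, e2, e4, pow_add, pow_add, Finset.prod_mul_distrib, Finset.prod_mul_distrib]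
  unfold cs one
  rw [if_pos h1, if_pos h2]
  calc _ = (sy s A₀ B₀ ^ e u v * sy s B₀ A₀ ^ e v u) * (w ^ #A₀ * w ^ #B₀ *
        w ^ (∑ z ∈ oth u v, #(B z)) * ((∏ p ∈ A₀, ch (τ u) p) *
        ((∏ p ∈ B₀, ch (τ v) p) * ∏ z ∈ oth u v, ∏ p ∈ B z, ch (τ z) p)) *
        ((∏ z ∈ oth u v, sy s A₀ (B z) ^ e u z) * (∏ z ∈ oth u v, sy s B₀ (B z) ^ e v z) *
        (∏ y ∈ oth u v, sy s (B y) A₀ ^ e y u) * (∏ y ∈ oth u v, sy s (B y) B₀ ^ e y v) *
        ∏ y ∈ oth u v, ∏ z ∈ oth u v, sy s (B y) (B z) ^ e y z)) := by ring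
    _ = _ := by
        rw [e0]
        ring

open Classical in
/-- The sum over the families with given other sets. -/
theorem fiber (h : Basic N s fun _ => 1) {u v : I} (huv : u ≠ v) (w : ℝ) {e : I → I → ℕ} (τ : I → X)
    (he : ∀ u, e u u = 0) (ho : Odd (e u v + e v u)) {Λ : Finset I} (hu : u ∈ Λ) (hv : v ∈ Λ)
    {x Z : ℝ} (B : I → Finset P) (hBu : B u = ∅) (hBv : B v = ∅)
    (hB1 : ∀ z ∈ oth u v, (z ∈ Λ ↔ Z < NN N (B z)))
    (hB2 : ∀ y z, y ≠ z → Disjoint (B y) (B z)) :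
    ∑ A ∈ ((TT I N x).filter (fun A => ∀ u, u ∈ Λ ↔ Z < NN N (A u))).filter
        (fun A => red u v A = B), wt s ch w e τ A =
      cs s ch w e τ u v B * bil N s (one s ch w e τ u v B u) (one s ch w e τ u v B v) Z
        (x / ((∏ z ∈ oth u v, NN N (B z) : ℕ) : ℝ)) := by
  set K : ℕ := ∏ z ∈ oth u v, NN N (B z) with hK
  have hK1 : 1 ≤ K := Finset.one_le_prod' fun z _ => one_le_NN h.two_le _
  have hK0 : (0 : ℝ) < K := by exact_mod_cast hK1
  set Y : ℝ := x / (K : ℝ) with hY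
  set Q := (FF N Y ×ˢ FF N Y).filter (fun q : Finset P × Finset P =>
    (Z < NN N q.1 ∧ Z < NN N q.2 ∧ (NN N q.1 : ℝ) * NN N q.2 ≤ Y)) with hQ
  set Q' := Q.filter (fun q : Finset P × Finset P => Disjoint q.1 q.2 ∧
    (∀ z ∈ oth u v, Disjoint q.1 (B z)) ∧ ∀ z ∈ oth u v, Disjoint q.2 (B z)) with hQ'
  have e1 : bil N s (one s ch w e τ u v B u) (one s ch w e τ u v B v) Z Y =
      ∑ q ∈ Q', one s ch w e τ u v B u q.1 * one s ch w e τ u v B v q.2 * sy s q.1 q.2 := by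
    have e2 : bil N s (one s ch w e τ u v B u) (one s ch w e τ u v B v) Z Y =
        ∑ q ∈ Q, one s ch w e τ u v B u q.1 * one s ch w e τ u v B v q.2 * sy s q.1 q.2 := by
      rw [hQ, Finset.sum_filter, Finset.sum_product]
      rfl
    rw [e2]
    symm
    refine Finset.sum_filter_of_ne fun q _ hne => ?_
    by_contra hcon
    apply hne
    by_cases c1 : Disjoint q.1 q.2
    · by_cases c2 : ∀ z ∈ oth u v, Disjoint q.1 (B z)
      · have c3 : ¬∀ z ∈ oth u v, Disjoint q.2 (B z) := fun c3 => hcon ⟨c1, c2, c3⟩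
        rw [show one s ch w e τ u v B v q.2 = 0 from if_neg c3]
        ring
      · rw [show one s ch w e τ u v B u q.1 = 0 from if_neg c2]
        ring
    · rw [sy_zero h c1]
      ring
  rw [e1, Finset.mul_sum]
  have hmul : ∀ A₀ B₀ : Finset P, ((∏ z, NN N (ins u v B A₀ B₀ z) : ℕ) : ℝ) =
      (NN N A₀ : ℝ) * NN N B₀ * K := by
    intro A₀ B₀
    have e3 : ∏ z, NN N (ins u v B A₀ B₀ z) = NN N A₀ * (NN N B₀ * K) := by
      rw [prod_oth huv, ins_u, ins_v huv, hK]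
      congr 2
      exact Finset.prod_congr rfl fun z hz => by rw [ins_o hz]
    rw [e3]
    push_cast
    ring
  have hinv : ∀ A, red u v A = B → ins u v B (A u) (A v) = A := by
    intro A hA
    funext z
    by_cases hz1 : z = u
    · rw [hz1, ins_u]
    · by_cases hz2 : z = v
      · rw [hz2, ins_v huv]
      · have hz : z ∈ oth u v := mem_oth.2 ⟨hz2, hz1⟩
        rw [ins_o hz, ← hA]
        exact ins_o hz A ∅ ∅
  have hredins : ∀ A₀ B₀, red u v (ins u v B A₀ B₀) = B := by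
    intro A₀ B₀
    funext z
    by_cases hz1 : z = u
    · rw [hz1, red, ins_u, hBu]
    · by_cases hz2 : z = v
      · rw [hz2, red, ins_v huv, hBv]
      · have hz : z ∈ oth u v := mem_oth.2 ⟨hz2, hz1⟩
        rw [red, ins_o hz, ins_o hz]
  refine Finset.sum_nbij' (fun A => (A u, A v)) (fun q => ins u v B q.1 q.2) ?_ ?_ ?_ ?_ ?_
  · intro A hA
    rw [Finset.mem_filter, Finset.mem_filter, TT, Finset.mem_filter] at hA
    obtain ⟨⟨⟨hA1, hA2, hA3⟩, hA4⟩, hA5⟩ := hA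
    have e5 := hinv A hA5
    have e6 := hmul (A u) (A v)
    rw [e5] at e6
    rw [e6] at hA3
    have e7 : (NN N (A u) : ℝ) * NN N (A v) ≤ Y := by
      rw [hY, le_div_iff₀ hK0]
      exact hA3
    have e8 := one_le_NN' h.two_le (A u)
    have e9 := one_le_NN' h.two_le (A v)
    have hAz : ∀ z ∈ oth u v, A z = B z := fun z hz => by
      rw [← hA5, red, ins_o hz]
    rw [hQ', Finset.mem_filter, hQ, Finset.mem_filter, Finset.mem_product]
    refine ⟨⟨⟨(mem_FF h).2 ?_, (mem_FF h).2 ?_⟩, (hA4 u).1 hu, (hA4 v).1 hv, e7⟩, hA2 u v huv,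
      fun z hz => ?_, fun z hz => ?_⟩
    · exact le_trans (le_mul_of_one_le_right (by positivity) e9) e7
    · exact le_trans (le_mul_of_one_le_left (by positivity) e8) e7
    · rw [← hAz z hz]
      exact hA2 u z (mem_oth.1 hz).2.symm
    · rw [← hAz z hz]
      exact hA2 v z (mem_oth.1 hz).1.symm
  · rintro ⟨A₀, B₀⟩ hq
    rw [hQ', Finset.mem_filter, hQ, Finset.mem_filter, Finset.mem_product] at hq
    obtain ⟨⟨⟨q1, q2⟩, q3, q4, q5⟩, q6, q7, q8⟩ := hq
    dsimp only at q1 q2 q3 q4 q5 q6 q7 q8 ⊢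
    have e7 : ((∏ z, NN N (ins u v B A₀ B₀ z) : ℕ) : ℝ) ≤ x := by
      rw [hmul]
      rwa [hY, le_div_iff₀ hK0] at q5
    have e8 : ∀ z, ins u v B A₀ B₀ z ∈ FF N x := by
      intro z
      rw [mem_FF h]
      refine le_trans ?_ e7
      exact_mod_cast Finset.single_le_prod' (fun y _ => one_le_NN h.two_le _) (Finset.mem_univ z)
    rw [Finset.mem_filter, Finset.mem_filter, TT, Finset.mem_filter, Fintype.mem_piFinset]
    refine ⟨⟨⟨e8, ?_, e7⟩, ?_⟩, hredins A₀ B₀⟩
    · have hsy : ∀ y z, y ≠ z → (y = u ∨ (y = v ∧ z ≠ u) ∨ (y ∈ oth u v ∧ z ∈ oth u v)) →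
          Disjoint (ins u v B A₀ B₀ y) (ins u v B A₀ B₀ z) := by
        intro y z hyz hc
        rcases hc with rfl | ⟨rfl, hzu⟩ | ⟨hy, hz⟩
        · rw [ins_u]
          by_cases hzv : z = v
          · rw [hzv, ins_v huv]
            exact q6
          · have hz : z ∈ oth y v := mem_oth.2 ⟨hzv, hyz.symm⟩
            rw [ins_o hz]
            exact q7 z hz
        · have hz : z ∈ oth u y := mem_oth.2 ⟨hyz.symm, hzu⟩
          rw [ins_v huv, ins_o hz]
          exact q8 z hz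
        · rw [ins_o hy, ins_o hz]
          exact hB2 y z hyz
      intro y z hyz
      by_cases h1 : y = u
      · exact hsy y z hyz (Or.inl h1)
      · by_cases h2 : z = u
        · exact (hsy z y hyz.symm (Or.inl h2)).symm
        · by_cases h3 : y = v
          · exact hsy y z hyz (Or.inr (Or.inl ⟨h3, h2⟩))
          · by_cases h4 : z = v
            · exact (hsy z y hyz.symm (Or.inr (Or.inl ⟨h4, h1⟩))).symm
            · exact hsy y z hyz (Or.inr (Or.inr ⟨mem_oth.2 ⟨h3, h1⟩, mem_oth.2 ⟨h4, h2⟩⟩))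
    · intro z
      by_cases h1 : z = u
      · rw [h1, ins_u]
        exact ⟨fun _ => q3, fun _ => hu⟩
      · by_cases h2 : z = v
        · rw [h2, ins_v huv]
          exact ⟨fun _ => q4, fun _ => hv⟩
        · have hz : z ∈ oth u v := mem_oth.2 ⟨h2, h1⟩
          rw [ins_o hz]
          exact hB1 z hz
  · intro A hA
    rw [Finset.mem_filter] at hA
    exact hinv A hA.2
  · rintro ⟨A₀, B₀⟩ _
    exact Prod.ext (ins_u _ _ _ _ _) (ins_v huv _ _ _)
  · intro A hA
    have hA' := hA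
    rw [Finset.mem_filter, Finset.mem_filter, TT, Finset.mem_filter] at hA
    obtain ⟨⟨⟨hA1, hA2, hA3⟩, hA4⟩, hA5⟩ := hA
    have hAz : ∀ z ∈ oth u v, A z = B z := fun z hz => by
      rw [← hA5, red, ins_o hz]
    have := wt_ins (ch := ch) h huv w τ he ho B (A₀ := A u) (B₀ := A v) (hA2 u v huv)
      (fun z hz => by rw [← hAz z hz]; exact hA2 u z (mem_oth.1 hz).2.symm)
      (fun z hz => by rw [← hAz z hz]; exact hA2 v z (mem_oth.1 hz).1.symm)
    rw [hinv A hA5] at this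
    exact this

/-- **Two linked large sets.** -/
theorem t_ABSa : Pool.Agent.Y690.JP.TABSa := by
  classical
  intro P X _ N s ch I _ _ w e τ h hch h2 h4 hw0 hw1 he
  intro Λ u v hu hv huv ho
  obtain ⟨C, δ, D, hδ, hC⟩ := h4
  obtain ⟨C', D', hC'0, hC'⟩ := sum_inv_FF h h2 1
  refine ⟨|C| * C' ^ Fintype.card I, δ, D + D' * Fintype.card I, hδ, fun x Z hx hZ => ?_⟩
  have hx0 : 0 < x := by linarith
  have hx1 : 1 ≤ x := by linarith
  have hlogx : 0 ≤ Real.log x := Real.log_nonneg hx1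
  have hL : 0 ≤ 1 + Real.log x := by linarith
  have hZ0 : 0 < Z := by linarith
  have hZp : 0 ≤ Z ^ (-δ) := Real.rpow_nonneg hZ0.le _
  set S := (TT I N x).filter (fun A => ∀ u, u ∈ Λ ↔ Z < NN N (A u)) with hS
  have hmem : ∀ A ∈ S, (∀ z, A z ∈ FF N x) ∧ (∀ y z, y ≠ z → Disjoint (A y) (A z)) ∧
      ((∏ u, NN N (A u) : ℕ) : ℝ) ≤ x ∧ ∀ u, u ∈ Λ ↔ Z < NN N (A u) := by
    intro A hA
    rw [hS, Finset.mem_filter, TT, Finset.mem_filter, Fintype.mem_piFinset] at hA
    exact ⟨hA.1.1, hA.1.2.1, hA.1.2.2, hA.2⟩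
  have hsum : ∑ A ∈ S, wt s ch w e τ A = ∑ B ∈ S.image (red u v),
      ∑ A ∈ S.filter (fun A => red u v A = B), wt s ch w e τ A :=
    (Finset.sum_fiberwise_of_maps_to (fun A hA => Finset.mem_image_of_mem _ hA) _).symm
  -- the reduced families
  have hred : ∀ B ∈ S.image (red u v), B u = ∅ ∧ B v = ∅ ∧
      (∀ z ∈ oth u v, (z ∈ Λ ↔ Z < NN N (B z))) ∧ (∀ y z, y ≠ z → Disjoint (B y) (B z)) ∧
      (∀ z, B z ∈ FF N x) ∧ ((∏ z, NN N (B z) : ℕ) : ℝ) ≤ x := by
    intro B hB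
    rw [Finset.mem_image] at hB
    obtain ⟨A, hA, rfl⟩ := hB
    obtain ⟨a1, a2, a3, a4⟩ := hmem A hA
    have hsub : ∀ z, red u v A z = ∅ ∨ red u v A z = A z := by
      intro z
      by_cases hz1 : z = u
      · left; rw [hz1, red, ins_u]
      · by_cases hz2 : z = v
        · left; rw [hz2, red, ins_v huv]
        · right; rw [red, ins_o (mem_oth.2 ⟨hz2, hz1⟩)]
    refine ⟨ins_u _ _ _ _ _, ins_v huv _ _ _, fun z hz => ?_, fun y z hyz => ?_, fun z => ?_, ?_⟩
    · rw [red, ins_o hz]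
      exact a4 z
    · rcases hsub y with hy | hy <;> rcases hsub z with hz | hz <;> rw [hy, hz]
      · exact Finset.disjoint_empty_left _
      · exact Finset.disjoint_empty_left _
      · exact Finset.disjoint_empty_right _
      · exact a2 y z hyz
    · rcases hsub z with hz | hz <;> rw [hz]
      · rw [mem_FF h, NN_empty]
        exact_mod_cast hx1
      · exact a1 z
    · refine le_trans ?_ a3
      have : ∏ z, NN N (red u v A z) ≤ ∏ z, NN N (A z) := by
        refine Finset.prod_le_prod' fun z _ => ?_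
        rcases hsub z with hz | hz <;> rw [hz]
        rw [NN_empty]
        exact one_le_NN h.two_le _
      exact_mod_cast this
  have hoth : ∀ B : I → Finset P, B u = ∅ → B v = ∅ →
      ∏ z ∈ oth u v, NN N (B z) = ∏ z, NN N (B z) := by
    intro B h1 h2
    rw [prod_oth huv, h1, h2, NN_empty, one_mul, one_mul]
  -- the bound for one reduced family
  have hbd : ∀ B ∈ S.image (red u v),
      |∑ A ∈ S.filter (fun A => red u v A = B), wt s ch w e τ A| ≤
        |C| * x * (1 + Real.log x) ^ D * Z ^ (-δ) * ((∏ z, NN N (B z) : ℕ) : ℝ)⁻¹ := by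
    intro B hB
    obtain ⟨b1, b2, b3, b4, b5, b6⟩ := hred B hB
    have e1 := fiber (ch := ch) (x := x) h huv w τ he ho hu hv B b1 b2 b3 b4
    rw [hoth B b1 b2] at e1
    set K : ℝ := ((∏ z, NN N (B z) : ℕ) : ℝ) with hK
    have hK1 : 1 ≤ K := by
      have : 1 ≤ ∏ z, NN N (B z) := Finset.one_le_prod' fun z _ => one_le_NN h.two_le _
      rw [hK]
      exact_mod_cast this
    have hK0 : 0 < K := by linarith
    have hY1 : 1 ≤ x / K := (one_le_div hK0).2 b6
    have e2 := hC (one s ch w e τ u v B u) (one s ch w e τ u v B v)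
      (abs_one_le h hch hw0 hw1 e τ u v B u) (abs_one_le h hch hw0 hw1 e τ u v B v) Z (x / K) hZ hY1
    have e3 : |bil N s (one s ch w e τ u v B u) (one s ch w e τ u v B v) Z (x / K)| ≤
        C * (x / K) * (1 + Real.log (x / K)) ^ D * Z ^ (-δ) := e2
    have e4 : Real.log (x / K) ≤ Real.log x :=
      Real.log_le_log (by positivity) (div_le_self hx0.le hK1)
    have e5 : 0 ≤ Real.log (x / K) := Real.log_nonneg hY1
    calc |∑ A ∈ S.filter (fun A => red u v A = B), wt s ch w e τ A|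
        = |cs s ch w e τ u v B| *
          |bil N s (one s ch w e τ u v B u) (one s ch w e τ u v B v) Z (x / K)| := by
          rw [← abs_mul, ← e1]
      _ ≤ 1 * |bil N s (one s ch w e τ u v B u) (one s ch w e τ u v B v) Z (x / K)| :=
          mul_le_mul_of_nonneg_right (abs_cs_le h hch hw0 hw1 e τ u v B) (abs_nonneg _)
      _ ≤ C * (x / K) * (1 + Real.log (x / K)) ^ D * Z ^ (-δ) := by
          rw [one_mul]
          exact e3
      _ ≤ |C| * (x / K) * (1 + Real.log x) ^ D * Z ^ (-δ) := by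
          refine mul_le_mul_of_nonneg_right ?_ hZp
          refine mul_le_mul ?_ (pow_le_pow_left₀ (by linarith) (by linarith) D) (by positivity)
            (by positivity)
          exact mul_le_mul_of_nonneg_right (le_abs_self C) (by positivity)
      _ = |C| * x * (1 + Real.log x) ^ D * Z ^ (-δ) * K⁻¹ := by
          rw [div_eq_mul_inv]
          ring
  rw [hsum]
  refine (Finset.abs_sum_le_sum_abs _ _).trans ((Finset.sum_le_sum hbd).trans ?_)
  rw [← Finset.mul_sum]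
  have e6 : ∑ B ∈ S.image (red u v), ((∏ z, NN N (B z) : ℕ) : ℝ)⁻¹ ≤
      (∑ A ∈ FF N x, (NN N A : ℝ)⁻¹) ^ Fintype.card I := by
    have e7 : S.image (red u v) ⊆ Fintype.piFinset (fun _ : I => FF N x) := fun B hB => by
      rw [Fintype.mem_piFinset]
      exact (hred B hB).2.2.2.2.1
    refine (Finset.sum_le_sum_of_subset_of_nonneg e7 fun B _ _ => by positivity).trans ?_
    have e8 := Finset.prod_univ_sum (fun _ : I => FF N x) (fun _ A => ((NN N A : ℕ) : ℝ)⁻¹)
    rw [Finset.prod_const, Finset.card_univ] at e8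
    rw [e8]
    refine le_of_eq (Finset.sum_congr rfl fun B _ => ?_)
    rw [Nat.cast_prod, Finset.prod_inv_distrib]
  have e9 : ∑ A ∈ FF N x, (NN N A : ℝ)⁻¹ ≤ C' * (1 + Real.log x) ^ D' := by
    have := hC' x hx1
    simpa using this
  have e10 : ∑ B ∈ S.image (red u v), ((∏ z, NN N (B z) : ℕ) : ℝ)⁻¹ ≤
      C' ^ Fintype.card I * (1 + Real.log x) ^ (D' * Fintype.card I) := by
    refine e6.trans ?_
    rw [pow_mul, ← mul_pow]
    exact pow_le_pow_left₀ (Finset.sum_nonneg fun A _ => by positivity) e9 _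
  calc _ ≤ |C| * x * (1 + Real.log x) ^ D * Z ^ (-δ) *
        (C' ^ Fintype.card I * (1 + Real.log x) ^ (D' * Fintype.card I)) :=
        mul_le_mul_of_nonneg_left e10 (by positivity)
    _ = _ := by
        rw [pow_add]
        ring

end Pool.Agent.Y258.JP
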